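import Pool.Agent.Helper5.BD.GDefs

/-!
# GH1 of `MP_79ec0d_co` (BoundedDegeneracy): plane maps of hubs and representatives
-/

noncomputable section

open Finset Helper5.CR Classical Equiv Equiv.Perm

namespace Helper5.BD

/-- counting the cycles of a permutation with weights -/
private theorem mul_nc_le' {D : Type} [Fintype D] (π : Perm D) (ω : D → ℕ) (K : ℕ)
    (h : ∀ d, ∃ s : Finset D, (∀ e ∈ s, π.SameCycle d e) ∧ K ≤ ∑ e ∈ s, ω e) :
    K * nc π ≤ ∑ d, ω d := by
  have h1 := Finset.sum_partition (s := (Finset.univ : Finset D)) (SameCycle.setoid π) (f := ω)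
  rw [h1]
  have h2 : (Finset.univ : Finset D).image (Quotient.mk (SameCycle.setoid π)) = Finset.univ := by
    ext q
    simp only [Finset.mem_image, Finset.mem_univ, true_and, iff_true]
    exact Quotient.exists_rep q
  rw [h2]
  have h3 : nc π = (Finset.univ : Finset (Quotient (SameCycle.setoid π))).card := by
    rw [Finset.card_univ, nc, Nat.card_eq_fintype_card]
  rw [h3, mul_comm, ← smul_eq_mul, ← Finset.sum_const]
  refine Finset.sum_le_sum fun q _ => ?_
  obtain ⟨d, rfl⟩ := Quotient.exists_rep q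
  obtain ⟨s, hs1, hs2⟩ := h d
  refine hs2.trans (Finset.sum_le_sum_of_subset ?_)
  intro e he
  rw [Finset.mem_filter]
  exact ⟨Finset.mem_univ _, Quotient.sound (s := SameCycle.setoid π)
    (SameCycle.symm (hs1 e he))⟩

section
variable {D V : Type} [Fintype D] {σ α : Perm D} {en : D → V} {rep : V → Prop}

private theorem en_sigma (hen : ∀ d d', en d = en d' ↔ σ.SameCycle d d') (d : D) :
    en (σ d) = en d := ((hen d (σ d)).2 ⟨1, by simp⟩).symm

/-- the face permutation alternates between hubs and representatives -/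
private theorem rep_phi (hen : ∀ d d', en d = en d' ↔ σ.SameCycle d d')
    (h1 : ∀ d, rep (en d) ↔ ¬ rep (en (α d))) (d : D) :
    rep (en (σ (α d))) ↔ ¬ rep (en d) := by
  rw [en_sigma hen, h1 d, not_not]

/-- darts at a representative -/
private theorem rep_two (hen : ∀ d d', en d = en d' ↔ σ.SameCycle d d')
    (h2 : ∀ d, rep (en d) → σ d ≠ d ∧ σ (σ d) = d) {d e : D} (hd : rep (en d))
    (he : en e = en d) : e = d ∨ e = σ d := by
  have hs : σ.SameCycle d e := (hen d e).1 he.symm
  obtain ⟨n, rfl⟩ := hs.exists_nat_pow_eq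
  have key : ∀ n : ℕ, (σ ^ n) d = d ∨ (σ ^ n) d = σ d := by
    intro n
    induction n with
    | zero => left; rfl
    | succ n ih =>
      rw [pow_succ', Perm.mul_apply]
      rcases ih with ih | ih
      · right; rw [ih]
      · left; rw [ih]; exact (h2 d hd).2
  exact key n

private theorem phi2_hub (hα : ∀ d, α (α d) = d) (hen : ∀ d d', en d = en d' ↔ σ.SameCycle d d')
    (h1 : ∀ d, rep (en d) ↔ ¬ rep (en (α d)))
    (h3 : ∀ d, rep (en d) → en (α d) ≠ en (α (σ d))) {d : D} (hd : ¬ rep (en d)) :
    en (σ (α (σ (α d)))) ≠ en d := by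
  have hr : rep (en (α d)) := by
    by_contra h
    exact hd ((h1 d).2 h)
  have h := h3 (α d) hr
  rw [hα] at h
  rw [en_sigma hen]
  exact h.symm

private theorem phi4_hub (hα : ∀ d, α (α d) = d) (hen : ∀ d d', en d = en d' ↔ σ.SameCycle d d')
    (h1 : ∀ d, rep (en d) ↔ ¬ rep (en (α d)))
    (h2 : ∀ d, rep (en d) → σ d ≠ d ∧ σ (σ d) = d)
    (h3 : ∀ d, rep (en d) → en (α d) ≠ en (α (σ d)))
    (h4 : ∀ d d', rep (en d) → rep (en d') → en (α d) = en (α d') →
      en (α (σ d)) = en (α (σ d')) → en d = en d')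
    (hfix : ∀ d, ¬ rep (en d) → σ d ≠ d) {d : D} (hd : ¬ rep (en d)) :
    σ (α (σ (α (σ (α (σ (α d))))))) ≠ d := by
  intro hfour
  have hr : rep (en (α d)) := by
    by_contra h
    exact hd ((h1 d).2 h)
  set e := σ (α d) with he
  have hre : rep (en e) := by rw [he, en_sigma hen]; exact hr
  have hse : σ e = α d := (h2 _ hr).2
  set d' := σ (α e) with hd'
  have hrd' : ¬ rep (en d') := by
    rw [hd', en_sigma hen]
    exact (h1 e).1 hre
  have hr' : rep (en (α d')) := by
    by_contra h
    exact hrd' ((h1 d').2 h)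
  have hc : en (α e) = en (α (α d')) := by
    rw [hα, hd', en_sigma hen]
  have hb : en (α (σ e)) = en (α (σ (α d'))) := by
    rw [hse, hα]
    have : en (σ (α (σ (α d')))) = en d := by rw [hfour]
    rw [en_sigma hen] at this
    exact this.symm
  have heq := h4 e (α d') hre hr' hc hb
  have hne : en d' ≠ en d := phi2_hub hα hen h1 h3 hd
  rcases rep_two hen h2 hre heq.symm with h | h
  · have h5 : d' = α e := by rw [← h, hα]
    exact hfix (α e) ((h1 e).1 hre) (hd'.symm.trans h5)
  · rw [hse] at h
    have h5 : d' = d := α.injective h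
    exact hne (by rw [h5])

end

theorem hub_map {D V : Type} [Fintype D] [Fintype V] [Nonempty D] {σ α : Perm D}
    (hp : Planar σ α) (hα : ∀ d, α (α d) = d) (hne : ∀ d, α d ≠ d) (en : D → V)
    (hen : ∀ d d', en d = en d' ↔ σ.SameCycle d d') (rep : V → Prop)
    (h1 : ∀ d, rep (en d) ↔ ¬ rep (en (α d)))
    (h2 : ∀ d, rep (en d) → σ d ≠ d ∧ σ (σ d) = d)
    (h3 : ∀ d, rep (en d) → en (α d) ≠ en (α (σ d)))
    (h4 : ∀ d d', rep (en d) → rep (en d') → en (α d) = en (α d') →
      en (α (σ d)) = en (α (σ d')) → en d = en d') :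
    ∃ v, ¬ rep v ∧ 1 ≤ (univ.filter (fun d => en d = v)).card ∧
      (univ.filter (fun d => en d = v)).card ≤ 6 := by
  by_contra hcon
  push_neg at hcon
  have hdeg : ∀ d, ¬ rep (en d) → 7 ≤ (univ.filter (fun e => en e = en d)).card := by
    intro d hd
    refine hcon (en d) hd (Finset.card_pos.2 ⟨d, ?_⟩)
    simp
  have hfix : ∀ d, ¬ rep (en d) → σ d ≠ d := by
    intro d hd hs
    have h7 := hdeg d hd
    have hsub : univ.filter (fun e => en e = en d) ⊆ {d} := by
      intro e he
      rw [Finset.mem_filter] at he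
      have hsc : σ.SameCycle d e := (hen d e).1 he.2.symm
      obtain ⟨n, rfl⟩ := hsc
      rw [Finset.mem_singleton]
      exact zpow_apply_eq_self_of_apply_eq_self hs n
    have := Finset.card_le_card hsub
    simp at this
    omega
  -- faces
  set φ := σ * α with hφ
  have hφa : ∀ d, φ d = σ (α d) := fun d => rfl
  have hpar : ∀ d, rep (en (φ d)) ↔ ¬ rep (en d) := fun d => rep_phi hen h1 d
  have n1 : ∀ d, φ d ≠ d := by
    intro d h
    have := hpar d
    rw [h] at this
    tauto
  have n3 : ∀ d, φ (φ (φ d)) ≠ d := by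
    intro d h
    have a1 := hpar d
    have a2 := hpar (φ d)
    have a3 := hpar (φ (φ d))
    rw [h] at a3
    tauto
  have n5 : ∀ d, φ (φ (φ (φ (φ d)))) ≠ d := by
    intro d h
    have a1 := hpar d
    have a2 := hpar (φ d)
    have a3 := hpar (φ (φ d))
    have a4 := hpar (φ (φ (φ d)))
    have a5 := hpar (φ (φ (φ (φ d))))
    rw [h] at a5
    tauto
  have n2h : ∀ d, ¬ rep (en d) → φ (φ d) ≠ d := by
    intro d hd h
    refine phi2_hub hα hen h1 h3 hd ?_
    show en (φ (φ d)) = en d
    rw [h]
  have n2 : ∀ d, φ (φ d) ≠ d := by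
    intro d h
    by_cases hd : rep (en d)
    · exact n2h (φ d) (fun hh => (hpar d).1 hh hd) (by rw [h])
    · exact n2h d hd h
  have n4h : ∀ d, ¬ rep (en d) → φ (φ (φ (φ d))) ≠ d := by
    intro d hd
    exact phi4_hub hα hen h1 h2 h3 h4 hfix hd
  have n4 : ∀ d, φ (φ (φ (φ d))) ≠ d := by
    intro d h
    by_cases hd : rep (en d)
    · exact n4h (φ d) (fun hh => (hpar d).1 hh hd) (by rw [h])
    · exact n4h d hd h
  have hF : 6 * nc φ ≤ ∑ _d : D, 1 := by
    refine mul_nc_le' φ (fun _ => 1) 6 (fun d => ?_)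
    refine ⟨(Finset.range 6).image (fun i => (φ ^ i) d), ?_, ?_⟩
    · intro e he
      rw [Finset.mem_image] at he
      obtain ⟨i, -, rfl⟩ := he
      exact ⟨i, by simp⟩
    · rw [Finset.sum_const, smul_eq_mul, mul_one, Finset.card_image_of_injOn, Finset.card_range]
      have hk : ∀ k, 1 ≤ k → k ≤ 5 → ∀ x, (φ ^ k) x ≠ x := by
        intro k hk1 hk5 x
        interval_cases k
        · exact n1 x
        · exact n2 x
        · exact n3 x
        · exact n4 x
        · exact n5 x
      have hlt : ∀ i j, i < j → j < 6 → (φ ^ i) d ≠ (φ ^ j) d := by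
        intro i j hij hj h
        have h' : (φ ^ (j - i)) ((φ ^ i) d) = (φ ^ i) d := by
          rw [← Perm.mul_apply, ← pow_add, Nat.sub_add_cancel hij.le]
          exact h.symm
        exact hk (j - i) (by omega) (by omega) _ h'
      intro i hi j hj hij
      simp only [Finset.coe_range, Set.mem_Iio] at hi hj
      rcases lt_trichotomy i j with h | h | h
      · exact absurd hij (hlt i j h hj)
      · exact h
      · exact absurd hij.symm (hlt j i h hi)
  -- segments
  have hE : 2 * nc α ≤ ∑ _d : D, 1 := by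
    refine mul_nc_le' α (fun _ => 1) 2 (fun d => ?_)
    refine ⟨{d, α d}, ?_, ?_⟩
    · intro e he
      rw [Finset.mem_insert, Finset.mem_singleton] at he
      rcases he with rfl | rfl
      · exact SameCycle.refl _ _
      · exact ⟨1, by simp⟩
    · rw [Finset.sum_const, smul_eq_mul, mul_one, Finset.card_pair (hne d).symm]
  -- points
  set ω : D → ℕ := fun d => if rep (en d) then 7 else 2 with hω
  have hP : 14 * nc σ ≤ ∑ d : D, ω d := by
    refine mul_nc_le' σ ω 14 (fun d => ?_)
    by_cases hd : rep (en d)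
    · refine ⟨{d, σ d}, ?_, ?_⟩
      · intro e he
        rw [Finset.mem_insert, Finset.mem_singleton] at he
        rcases he with rfl | rfl
        · exact SameCycle.refl _ _
        · exact ⟨1, by simp⟩
      · rw [Finset.sum_pair (h2 d hd).1.symm]
        have e1 : ω d = 7 := if_pos hd
        have e2 : ω (σ d) = 7 := by
          simp only [hω]
          rw [en_sigma hen, if_pos hd]
        rw [e1, e2]
    · refine ⟨univ.filter (fun e => en e = en d), ?_, ?_⟩
      · intro e he
        rw [Finset.mem_filter] at he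
        exact (hen d e).1 he.2.symm
      · have e1 : ∀ e ∈ univ.filter (fun e => en e = en d), ω e = 2 := by
          intro e he
          rw [Finset.mem_filter] at he
          simp only [hω]
          rw [he.2, if_neg hd]
        rw [Finset.sum_congr rfl e1, Finset.sum_const, smul_eq_mul]
        have := hdeg d hd
        omega
  have hω2 : 2 * ∑ d : D, ω d = ∑ _d : D, 9 := by
    have e1 : ∑ d : D, ω (α d) = ∑ d : D, ω d := Equiv.sum_comp α ω
    have e2 : ∀ d, ω d + ω (α d) = 9 := by
      intro d
      simp only [hω]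
      by_cases hd : rep (en d)
      · rw [if_pos hd, if_neg ((h1 d).1 hd)]
      · rw [if_neg hd, if_pos (by by_contra h; exact hd ((h1 d).2 h))]
    calc 2 * ∑ d : D, ω d = ∑ d : D, ω d + ∑ d : D, ω (α d) := by rw [e1]; ring
      _ = ∑ d : D, (ω d + ω (α d)) := Finset.sum_add_distrib.symm
      _ = ∑ _d : D, 9 := Finset.sum_congr rfl (fun d _ => e2 d)
  have hpos : 0 < Fintype.card D := Fintype.card_pos
  have heul : nc σ + nc α + nc φ = Nat.card D + 2 * ncomp σ α := hp
  rw [Nat.card_eq_fintype_card] at heul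
  simp only [Finset.sum_const, Finset.card_univ, smul_eq_mul, mul_one] at hF hE hω2
  omega

end Helper5.BD
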