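import Pool.Agent.Helper5.BD.GDefs

/-!
# GR5 of `MP_79ec0d_co` (BoundedDegeneracy): cost of the rerouted drawing
-/

noncomputable section

open Finset Helper5.CR Classical Equiv Equiv.Perm

namespace Helper5.BD

variable {V E : Type} [Fintype E] {src tgt : E → V}

/-- at most `2 M` edges of `F` follow an edge -/
private theorem sum_follow (F : Finset E) (g : E → E) (ap : E → V) (M : ℕ)
    (hg : ∀ f ∈ F, src (g f) = ap f ∨ tgt (g f) = ap f)
    (hM : ∀ v, (F.filter (fun f => ap f = v)).card ≤ M) (w : E → ℕ) :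
    ∑ f ∈ F, w (g f) ≤ 2 * M * ∑ e, w e := by
  rw [← Finset.sum_fiberwise F g (fun f => w (g f)), Finset.mul_sum]
  refine Finset.sum_le_sum fun e _ => ?_
  have e1 : ∑ f ∈ F.filter (fun f => g f = e), w (g f) =
      (F.filter (fun f => g f = e)).card * w e := by
    rw [← smul_eq_mul, ← Finset.sum_const]
    refine Finset.sum_congr rfl fun f hf => ?_
    rw [(Finset.mem_filter.1 hf).2]
  rw [e1]
  refine Nat.mul_le_mul_right _ ?_
  have hsub : F.filter (fun f => g f = e) ⊆
      F.filter (fun f => ap f = src e) ∪ F.filter (fun f => ap f = tgt e) := by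
    intro f hf
    obtain ⟨hf1, hf2⟩ := Finset.mem_filter.1 hf
    rw [Finset.mem_union, Finset.mem_filter, Finset.mem_filter]
    rcases hg f hf1 with h | h
    · left; exact ⟨hf1, by rw [← h, hf2]⟩
    · right; exact ⟨hf1, by rw [← h, hf2]⟩
  calc (F.filter (fun f => g f = e)).card
      ≤ (F.filter (fun f => ap f = src e) ∪ F.filter (fun f => ap f = tgt e)).card :=
        Finset.card_le_card hsub
    _ ≤ (F.filter (fun f => ap f = src e)).card + (F.filter (fun f => ap f = tgt e)).card :=
        Finset.card_union_le _ _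
    _ ≤ M + M := Nat.add_le_add (hM _) (hM _)
    _ = 2 * M := by ring

private theorem gr_le_sq (n : ℕ) : PreDrawing.gr n ≤ n ^ 2 := by
  unfold PreDrawing.gr
  split_ifs with h1 h2
  · exact Nat.zero_le _
  · subst h2; norm_num
  · exact le_rfl

private theorem gr_le_B {n B b : ℕ} (hn : n ≤ B) (hb : 1 ≤ b) : PreDrawing.gr n ≤ B ^ 2 * b :=
  (gr_le_sq n).trans ((Nat.pow_le_pow_left hn 2).trans (Nat.le_mul_of_pos_right _ hb))

private theorem sum_count_eq {X : Type} [Fintype X] (l : List X) :
    ∑ x, l.count x = l.length := by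
  induction l with
  | nil => simp
  | cons a l ih =>
    simp only [List.count_cons, List.length_cons, Finset.sum_add_distrib, ih]
    simp

theorem cost_bound [Fintype V] (P : PreDrawing src tgt) (hG : P.Good)
    (hne : ∀ e, src e ≠ tgt e) (hpos : ∀ e, ipts P e ≠ []) (F : Finset E) (g₁ g₂ : E → E)
    (ap : E → V) (M : ℕ)
    (h1 : ∀ f ∈ F, src (g₁ f) = ap f ∨ tgt (g₁ f) = ap f)
    (h2 : ∀ f ∈ F, src (g₂ f) = ap f ∨ tgt (g₂ f) = ap f)
    (hM : ∀ v, (F.filter (fun f => ap f = v)).card ≤ M)
    (hv : ∀ v, (univ.filter (fun d => P.pt d = P.loc v)).card ≤ mdeg src tgt v)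
    (hs : ∀ e, ∑ d, sg P e d ≤ 2 * ((ipts P e).length + 1))
    (n : P.X ⊕ P.D → ℕ)
    (hn1 : ∀ x, n (Sum.inl x) ≤ ∑ e ∈ univ \ F, (ipts P e).count x +
      ∑ f ∈ F, ((ipts P (g₁ f)).count x + (ipts P (g₂ f)).count x))
    (hn2 : ∀ d, n (Sum.inr d) ≤ ∑ e ∈ univ \ F, sg P e d +
      ∑ f ∈ F, (sg P (g₁ f) d + sg P (g₂ f) d + if P.pt d = P.loc (ap f) then 1 else 0)) :
    ∑ y, PreDrawing.gr (n y) ≤ away P F + 5 * (8 * M + 2) ^ 2 *
      ∑ f ∈ F, ((ipts P (g₁ f)).length + (ipts P (g₂ f)).length + mdeg src tgt (ap f)) := by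
  have _ := hne
  set B := 8 * M + 2 with hB
  -- centres
  have hpass : ∀ x, ∑ e, (ipts P e).count x = P.passes x := fun x => rfl
  have hcen : ∀ x, PreDrawing.gr (n (Sum.inl x)) ≤
      (if P.passes x = 2 ∧ ∀ f ∈ F, x ∉ ipts P f then 1 else 0) +
      B ^ 2 * ∑ f ∈ F, ((ipts P (g₁ f)).count x + (ipts P (g₂ f)).count x) := by
    intro x
    have hsplit : ∑ e ∈ univ \ F, (ipts P e).count x + ∑ f ∈ F, (ipts P f).count x =
        P.passes x := by
      rw [← hpass x]
      exact Finset.sum_sdiff (Finset.subset_univ F)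
    have hp2 : P.passes x ≤ 2 := hG.simple x
    have hb1 : ∑ f ∈ F, (ipts P (g₁ f)).count x ≤ 4 * M := by
      have := sum_follow F g₁ ap M h1 hM (fun e => (ipts P e).count x)
      rw [hpass x] at this
      nlinarith
    have hb2 : ∑ f ∈ F, (ipts P (g₂ f)).count x ≤ 4 * M := by
      have := sum_follow F g₂ ap M h2 hM (fun e => (ipts P e).count x)
      rw [hpass x] at this
      nlinarith
    have hn := hn1 x
    by_cases hb : ∑ f ∈ F, ((ipts P (g₁ f)).count x + (ipts P (g₂ f)).count x) = 0
    · rw [hb, mul_zero, add_zero]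
      rw [hb, add_zero] at hn
      by_cases hn2' : n (Sum.inl x) ≤ 1
      · have : PreDrawing.gr (n (Sum.inl x)) = 0 := if_pos hn2'
        rw [this]
        exact Nat.zero_le _
      · have hx2 : n (Sum.inl x) = 2 := by omega
        have hF0 : ∑ f ∈ F, (ipts P f).count x = 0 := by omega
        have hpx : P.passes x = 2 := by omega
        have hnot : ∀ f ∈ F, x ∉ ipts P f := by
          intro f hf hx
          have := (Finset.sum_eq_zero_iff.1 hF0) f hf
          have hc : 0 < (ipts P f).count x := List.count_pos_iff.2 hx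
          omega
        rw [if_pos ⟨hpx, hnot⟩, hx2]
        exact le_of_eq rfl
    · refine le_trans (gr_le_B (B := B) ?_ (Nat.one_le_iff_ne_zero.2 hb)) (Nat.le_add_left _ _)
      rw [Finset.sum_add_distrib] at hn
      omega
  -- rim points
  have huse : ∀ d, ∑ e, sg P e d ≤ 1 := by
    intro d
    refine le_trans (Finset.sum_le_sum fun e _ => ?_) (P.route_use d)
    unfold sg
    split_ifs with h
    · rcases h with h | h
      · have : 0 < (P.route e).count d := List.count_pos_iff.2 h
        omega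
      · have : 0 < (P.route e).count (P.α d) := List.count_pos_iff.2 h
        omega
    · exact Nat.zero_le _
  have hrim : ∀ d, PreDrawing.gr (n (Sum.inr d)) ≤
      B ^ 2 * ∑ f ∈ F, (sg P (g₁ f) d + sg P (g₂ f) d +
        if P.pt d = P.loc (ap f) then 1 else 0) := by
    intro d
    have ha : ∑ e ∈ univ \ F, sg P e d ≤ 1 :=
      le_trans (Finset.sum_le_sum_of_subset (Finset.subset_univ _)) (huse d)
    have hb1 : ∑ f ∈ F, sg P (g₁ f) d ≤ 2 * M := by
      have := sum_follow F g₁ ap M h1 hM (fun e => sg P e d)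
      have := huse d
      nlinarith
    have hb2 : ∑ f ∈ F, sg P (g₂ f) d ≤ 2 * M := by
      have := sum_follow F g₂ ap M h2 hM (fun e => sg P e d)
      have := huse d
      nlinarith
    have hb3 : (∑ f ∈ F, if P.pt d = P.loc (ap f) then 1 else 0) ≤ M := by
      rw [← Finset.card_filter]
      by_cases hex : ∃ v, P.pt d = P.loc v
      · obtain ⟨v, hv'⟩ := hex
        refine le_trans (Finset.card_le_card ?_) (hM v)
        intro f hf
        rw [Finset.mem_filter] at hf ⊢
        refine ⟨hf.1, P.loc_inj ?_⟩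
        rw [← hf.2, hv']
      · have : F.filter (fun f => P.pt d = P.loc (ap f)) = ∅ := by
          refine Finset.filter_eq_empty_iff.2 ?_
          intro f _ hf
          exact hex ⟨_, hf⟩
        rw [this, Finset.card_empty]
        exact Nat.zero_le _
    have hn := hn2 d
    by_cases hb : ∑ f ∈ F, (sg P (g₁ f) d + sg P (g₂ f) d +
        if P.pt d = P.loc (ap f) then 1 else 0) = 0
    · rw [hb, add_zero] at hn
      have : PreDrawing.gr (n (Sum.inr d)) = 0 := if_pos (hn.trans ha)
      rw [this]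
      exact Nat.zero_le _
    · refine gr_le_B (B := B) ?_ (Nat.one_le_iff_ne_zero.2 hb)
      rw [Finset.sum_add_distrib, Finset.sum_add_distrib] at hn
      omega
  -- sums
  have hsumx : ∑ x, PreDrawing.gr (n (Sum.inl x)) ≤ away P F +
      B ^ 2 * ∑ f ∈ F, ((ipts P (g₁ f)).length + (ipts P (g₂ f)).length) := by
    refine le_trans (Finset.sum_le_sum fun x _ => hcen x) ?_
    rw [Finset.sum_add_distrib]
    refine Nat.add_le_add ?_ ?_
    · rw [← Finset.card_filter]
      unfold away
      rw [Nat.card_eq_fintype_card, Fintype.card_subtype]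
    · rw [← Finset.mul_sum, Finset.sum_comm]
      refine Nat.mul_le_mul_left _ (Finset.sum_le_sum fun f _ => ?_)
      rw [Finset.sum_add_distrib, sum_count_eq, sum_count_eq]
  have hsumd : ∑ d, PreDrawing.gr (n (Sum.inr d)) ≤
      B ^ 2 * ∑ f ∈ F, (4 * (ipts P (g₁ f)).length + 4 * (ipts P (g₂ f)).length +
        mdeg src tgt (ap f)) := by
    refine le_trans (Finset.sum_le_sum fun d _ => hrim d) ?_
    rw [← Finset.mul_sum, Finset.sum_comm]
    refine Nat.mul_le_mul_left _ (Finset.sum_le_sum fun f _ => ?_)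
    rw [Finset.sum_add_distrib, Finset.sum_add_distrib, ← Finset.card_filter]
    have hk : ∀ e, 1 ≤ (ipts P e).length := fun e => List.length_pos_iff.2 (hpos e)
    have q1 := hs (g₁ f)
    have q2 := hs (g₂ f)
    have q3 := hv (ap f)
    have q4 := hk (g₁ f)
    have q5 := hk (g₂ f)
    omega
  rw [Fintype.sum_sum_type]
  refine le_trans (Nat.add_le_add hsumx hsumd) ?_
  rw [add_assoc, ← Nat.mul_add, ← Finset.sum_add_distrib, mul_comm 5 (B ^ 2), mul_assoc,
    Finset.mul_sum (a := 5)]
  refine Nat.add_le_add_left (Nat.mul_le_mul_left _ (Finset.sum_le_sum fun f _ => ?_)) _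
  omega

end Helper5.BD
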