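import Pool.Agent.Helper5.BD.RS

/-!
# M2 of `MP_79ec0d_co` (BoundedDegeneracy): the rerouting inequality for the crossed edges
-/

noncomputable section

open Finset Helper5.CR Classical

namespace Helper5.BD

variable {V E : Type} [Fintype E] {src tgt : E → V}

private theorem reroute_aux {X : Type} [Fintype V] [Fintype X] (C : CSys V E X) {c d : ℕ}
    (O : Ori (rs C) d)
    (hgen : ∀ (F : Finset E) (g₁ g₂ : E → E) (ap : E → V) (M : ℕ)
      (_ : ∀ f ∈ F, 0 < C.k f ∧ 0 < C.k (g₁ f) ∧ 0 < C.k (g₂ f))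
      (_ : ∀ f ∈ F, (C.src (g₁ f) = ap f ∧ C.tgt (g₁ f) = C.src f) ∨
        (C.src (g₁ f) = C.src f ∧ C.tgt (g₁ f) = ap f))
      (_ : ∀ f ∈ F, (C.src (g₂ f) = ap f ∧ C.tgt (g₂ f) = C.tgt f) ∨
        (C.src (g₂ f) = C.tgt f ∧ C.tgt (g₂ f) = ap f))
      (_ : ∀ v, (F.filter (fun f => ap f = v)).card ≤ M),
      c ≤ (univ.filter (fun x => C.e₁ x ∉ F ∧ C.e₂ x ∉ F)).card +
        5 * (8 * M + 2) ^ 2 *
        ∑ f ∈ F, (C.k (g₁ f) + C.k (g₂ f) +
          (univ.filter (fun e => 0 < C.k e ∧ (C.src e = ap f ∨ C.tgt e = ap f))).card)) :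
    O.Reroute (5 * (8 * d ^ 2 + 2) ^ 2) c := by
  intro F g h htri
  let ex : (Ec C → E) → E → E := fun φ e => if he : 0 < C.k e then φ ⟨e, he⟩ else e
  have hex : ∀ (φ : Ec C → E) (e : Ec C), ex φ e.1 = φ e := by
    intro φ e
    simp only [ex]
    rw [dif_pos e.2]
  let g₁ : E → E := ex (fun f => if C.src f.1 = O.lo f then (g f).1 else (h f).1)
  let g₂ : E → E := ex (fun f => if C.src f.1 = O.lo f then (h f).1 else (g f).1)
  let ap : E → V := fun e => if he : 0 < C.k e then O.lo (g ⟨e, he⟩) else C.src e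
  have hap : ∀ e : Ec C, ap e.1 = O.lo (g e) := by
    intro e
    simp only [ap]
    rw [dif_pos e.2]
  have hg1 : ∀ f : Ec C, g₁ f.1 = if C.src f.1 = O.lo f then (g f).1 else (h f).1 :=
    fun f => hex (fun f => if C.src f.1 = O.lo f then (g f).1 else (h f).1) f
  have hg2 : ∀ f : Ec C, g₂ f.1 = if C.src f.1 = O.lo f then (h f).1 else (g f).1 :=
    fun f => hex (fun f => if C.src f.1 = O.lo f then (h f).1 else (g f).1) f
  -- ends of an edge
  have hends : ∀ e : Ec C, (C.src e.1 = O.lo e ∧ C.tgt e.1 = O.hi e) ∨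
      (C.src e.1 = O.hi e ∧ C.tgt e.1 = O.lo e) := fun e => O.ends e
  have hmem : ∀ e : Ec C, e.1 ∈ F.image Subtype.val ↔ e ∈ F := by
    intro e
    rw [Finset.mem_image]
    constructor
    · rintro ⟨e', he', hee⟩
      rw [← Subtype.ext hee]
      exact he'
    · intro he
      exact ⟨e, he, rfl⟩
  have hmain := hgen (F.image Subtype.val) g₁ g₂ ap (d ^ 2) ?_ ?_ ?_ ?_
  · refine hmain.trans (Nat.add_le_add ?_ (Nat.mul_le_mul_left _ ?_))
    · unfold Ori.cnt
      refine Finset.card_le_card ?_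
      intro x hx
      simp only [Finset.mem_filter] at hx ⊢
      refine ⟨hx.1, ?_, ?_⟩
      · intro hh
        exact hx.2.1 ((hmem ((rs C).e₁ x)).2 hh)
      · intro hh
        exact hx.2.2 ((hmem ((rs C).e₂ x)).2 hh)
    · rw [Finset.sum_image (fun a _ b _ hab => Subtype.ext hab)]
      refine Finset.sum_le_sum fun f hf => ?_
      rw [rs_k, rs_k]
      have hk : C.k (g₁ f.1) + C.k (g₂ f.1) = C.k (g f).1 + C.k (h f).1 := by
        rw [hg1, hg2]
        split_ifs
        · rfl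
        · exact Nat.add_comm _ _
      have hdeg : (univ.filter (fun e => 0 < C.k e ∧ (C.src e = ap f.1 ∨ C.tgt e = ap f.1))).card ≤
          O.deg (O.lo (g f)) := by
        unfold Ori.deg
        rw [hap f]
        refine Finset.card_le_card_of_surjOn (fun e : Ec C => e.1) ?_
        intro e he
        rw [Finset.mem_coe, Finset.mem_filter] at he
        obtain ⟨-, he1, he2⟩ := he
        refine ⟨⟨e, he1⟩, ?_, rfl⟩
        rw [Finset.mem_coe, Finset.mem_filter]
        refine ⟨Finset.mem_univ _, ?_⟩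
        rcases hends ⟨e, he1⟩ with ⟨a, b⟩ | ⟨a, b⟩
        · rcases he2 with he2 | he2
          · left; rw [← a]; exact he2
          · right; rw [← b]; exact he2
        · rcases he2 with he2 | he2
          · right; rw [← a]; exact he2
          · left; rw [← b]; exact he2
      omega
  · intro f hf
    rw [Finset.mem_image] at hf
    obtain ⟨f, hf, rfl⟩ := hf
    refine ⟨f.2, ?_, ?_⟩
    · rw [hg1]
      split_ifs
      · exact (g f).2
      · exact (h f).2
    · rw [hg2]
      split_ifs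
      · exact (h f).2
      · exact (g f).2
  · intro f hf
    rw [Finset.mem_image] at hf
    obtain ⟨f, hf, rfl⟩ := hf
    obtain ⟨t1, t2, t3⟩ := htri f hf
    rw [hg1, hap]
    split_ifs with hsf
    · rw [hsf, ← t2]
      rcases hends (g f) with ⟨a, b⟩ | ⟨a, b⟩
      · left; exact ⟨a, b⟩
      · right; exact ⟨a, b⟩
    · have hsf' : C.src f.1 = O.hi f := by
        rcases hends f with ⟨a, b⟩ | ⟨a, b⟩
        · exact absurd a hsf
        · exact a
      rw [hsf', ← t3, t1]
      rcases hends (h f) with ⟨a, b⟩ | ⟨a, b⟩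
      · left; exact ⟨a, b⟩
      · right; exact ⟨a, b⟩
  · intro f hf
    rw [Finset.mem_image] at hf
    obtain ⟨f, hf, rfl⟩ := hf
    obtain ⟨t1, t2, t3⟩ := htri f hf
    rw [hg2, hap]
    split_ifs with hsf
    · have htf' : C.tgt f.1 = O.hi f := by
        rcases hends f with ⟨a, b⟩ | ⟨a, b⟩
        · exact b
        · exact absurd (hsf.trans b.symm) (C.loop f.1)
      rw [htf', ← t3, t1]
      rcases hends (h f) with ⟨a, b⟩ | ⟨a, b⟩
      · left; exact ⟨a, b⟩
      · right; exact ⟨a, b⟩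
    · have htf' : C.tgt f.1 = O.lo f := by
        rcases hends f with ⟨a, b⟩ | ⟨a, b⟩
        · exact absurd a hsf
        · exact b
      rw [htf', ← t2]
      rcases hends (g f) with ⟨a, b⟩ | ⟨a, b⟩
      · left; exact ⟨a, b⟩
      · right; exact ⟨a, b⟩
  · intro v
    have hsq : d ^ 2 = d * d := by ring
    rw [hsq]
    refine le_trans ?_ (Nat.mul_le_mul (O.out v) (O.out v))
    rw [← Finset.card_product]
    have hfil : (F.image Subtype.val).filter (fun f => ap f = v) =
        (F.filter (fun f => O.lo (g f) = v)).image Subtype.val := by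
      ext e
      simp only [Finset.mem_filter, Finset.mem_image]
      constructor
      · rintro ⟨⟨f, hf, rfl⟩, hv⟩
        exact ⟨f, ⟨hf, by rw [← hap]; exact hv⟩, rfl⟩
      · rintro ⟨f, ⟨hf, hv⟩, rfl⟩
        exact ⟨⟨f, hf, rfl⟩, by rw [hap]; exact hv⟩
    rw [hfil]
    refine le_trans Finset.card_image_le ?_
    refine Finset.card_le_card_of_injOn (fun f => (g f, h f)) ?_ ?_
    · intro f hf
      rw [Finset.mem_coe, Finset.mem_filter] at hf
      obtain ⟨hf, hv⟩ := hf
      obtain ⟨t1, t2, t3⟩ := htri f hf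
      rw [Finset.mem_coe, Finset.mem_product, Finset.mem_filter, Finset.mem_filter]
      exact ⟨⟨Finset.mem_univ _, hv⟩, ⟨Finset.mem_univ _, by rw [← t1]; exact hv⟩⟩
    · intro f hf f' hf' hff
      rw [Finset.mem_coe, Finset.mem_filter] at hf hf'
      obtain ⟨t1, t2, t3⟩ := htri f hf.1
      obtain ⟨s1, s2, s3⟩ := htri f' hf'.1
      have e1 : g f = g f' := congrArg Prod.fst hff
      have e2 : h f = h f' := congrArg Prod.snd hff
      refine O.uniq f f' ?_ ?_
      · rw [← t2, ← s2, e1]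
      · rw [← t3, ← s3, e2]

theorem reroute_rs [Fintype V] (P : PreDrawing src tgt) (hG : P.Good)
    (hne : ∀ e, src e ≠ tgt e) {d : ℕ} (O : Ori (rs (P.toCSys hG hne)) d)
    (hgen : ∀ (F : Finset E) (g₁ g₂ : E → E) (ap : E → V) (M : ℕ)
      (_ : ∀ f ∈ F, 0 < (P.toCSys hG hne).k f ∧ 0 < (P.toCSys hG hne).k (g₁ f) ∧
        0 < (P.toCSys hG hne).k (g₂ f))
      (_ : ∀ f ∈ F, (src (g₁ f) = ap f ∧ tgt (g₁ f) = src f) ∨
        (src (g₁ f) = src f ∧ tgt (g₁ f) = ap f))
      (_ : ∀ f ∈ F, (src (g₂ f) = ap f ∧ tgt (g₂ f) = tgt f) ∨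
        (src (g₂ f) = tgt f ∧ tgt (g₂ f) = ap f))
      (_ : ∀ v, (F.filter (fun f => ap f = v)).card ≤ M),
      crS src tgt (fun e => 0 < (P.toCSys hG hne).k e) ≤
        (univ.filter (fun x => P.ed₁ hG x ∉ F ∧ P.ed₂ hG x ∉ F)).card +
        5 * (8 * M + 2) ^ 2 *
        ∑ f ∈ F, ((P.toCSys hG hne).k (g₁ f) + (P.toCSys hG hne).k (g₂ f) +
          (univ.filter (fun e => 0 < (P.toCSys hG hne).k e ∧
            (src e = ap f ∨ tgt e = ap f))).card)) :
    O.Reroute (5 * (8 * d ^ 2 + 2) ^ 2) (crS src tgt (fun e => 0 < (P.toCSys hG hne).k e)) :=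
  reroute_aux (P.toCSys hG hne) O hgen

end Helper5.BD
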